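import Pool.Agent.TH300.FC.Base
import Pool.Agent.TH300.FC.Rank

set_option autoImplicit false

/-!
# Faithful covers of weights of bounded ratio on highly edge-connected graphs

Graphs are finite, with loops and parallel edges allowed: `MGraph V E` is a graph with vertex set
`V` and edge set `E`, `G.deg D v` is the degree of `v` in the subgraph with edge set `D` (loops
count twice), and `G.IsCircuit C` says that `C` is the edge set of a connected 2-regular subgraph.
The three are defined in `Pool.Agent.H126R2.CDC.Defs`.

Idea of the proof.  A graph whose nonempty cuts have at least `4 m` edges contains `2 m` disjoint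
edge sets, each with a spanning tree of every component.  Pairing them gives `m` disjoint edge
sets `B j` such that every edge set containing some `B j` is bridgeless.  If the weights
are between `2 s` and `2 m s + 1`, every edge `e` can be put into `⌊w e / 2⌋` of `m s` layers such
that the layers with number `(j, i)` contain `B j`.  By the circuit double cover theorem every
layer has a circuit double cover, and the edges of odd weight form an even subgraph.
-/

namespace Pool.Agent.Results.MP_2c3f2e_co.HighlyConnected

open Finset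
open Pool.Agent.H126R2.CDC
open Pool.Agent.Helper879.ECD (sp F2 IsFlow inc cn f2_cases)

open Classical in
/-- the set of the edges of `G` with exactly one end in `X` -/
noncomputable def cut {V E : Type} [Fintype V] [Fintype E] (G : MGraph V E) (X : Finset V) :
    Finset E :=
  univ.filter fun e => (∃ x, x ∈ X ∧ x ∈ G.ends e) ∧ ∃ y, y ∉ X ∧ y ∈ G.ends e

lemma cn_eq {V E : Type} [Fintype V] [DecidableEq V] [Fintype E] [DecidableEq E]
    (G : MGraph V E) (v : E × Bool → V) (hv : ∀ e, G.ends e = s(v (e, false), v (e, true)))
    (X : Finset V) :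
    cn (fun e => v (e, false)) (fun e => v (e, true)) univ X = (cut G X).card := by
  classical
  unfold cn cut
  congr 1
  ext e
  simp only [Finset.mem_filter, Finset.mem_univ, true_and]
  rw [hv e]
  simp only [Sym2.mem_iff]
  constructor
  · intro h
    by_cases h1 : v (e, false) ∈ X
    · have h2 : v (e, true) ∉ X := fun h2 => h ⟨fun _ => h2, fun _ => h1⟩
      exact ⟨⟨_, h1, Or.inl rfl⟩, ⟨_, h2, Or.inr rfl⟩⟩
    · have h2 : v (e, true) ∈ X := by
        by_contra h2
        exact h ⟨fun h3 => absurd h3 h1, fun h3 => absurd h3 h2⟩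
      exact ⟨⟨_, h2, Or.inr rfl⟩, ⟨_, h1, Or.inl rfl⟩⟩
  · rintro ⟨⟨x, hx, hx'⟩, ⟨y, hy, hy'⟩⟩ h
    rcases hx' with rfl | rfl <;> rcases hy' with rfl | rfl
    · exact hy hx
    · exact hy (h.1 hx)
    · exact hy (h.2 hx)
    · exact hy hx

/-- Let `G` be a finite graph in which every nonempty edge cut has at least `4 * m` edges, and
let `w : E(G) → ℕ` be a weight such that the edges of odd weight form an even subgraph (`w` is
eulerian) and, for some `s`, all weights are between `2 * s` and `2 * m * s + 1`. Then some finite
family of circuits of `G`, repetitions allowed, covers every edge `e` exactly `w e` times. -/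
theorem result {V E : Type} [Fintype V] [DecidableEq V] [Fintype E] [DecidableEq E]
    (G : MGraph V E) (m s : ℕ) (hcut : ∀ X : Finset V, cut G X = ∅ ∨ 4 * m ≤ (cut G X).card)
    (w : E → ℕ)
    (hodd : ∀ v, Even (G.deg (univ.filter fun e => Odd (w e)) v))
    (hw : ∀ e, 2 * s ≤ w e ∧ w e ≤ 2 * m * s + 1) :
    ∃ F : Multiset (Finset E), (∀ C ∈ F, G.IsCircuit C) ∧
      ∀ e, F.countP (fun C => e ∈ C) = w e := by
  classical
  apply Pool.Agent.TH300.FC.finish G w hodd
  obtain ⟨v, hv⟩ := G.exists_halves
  obtain ⟨I, hd, hI⟩ := Pool.Agent.TH300.FC.pack m (fun e => v (e, false)) (fun e => v (e, true))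
    (by
      intro X
      rw [cn_eq G v hv X]
      rcases hcut X with h | h
      · left; rw [h]; rfl
      · right; exact h)
  -- the layers
  have hL : ∀ e, ∃ L : Finset (Fin m × Fin s), L.card = w e / 2 ∧
      ∀ j c, e ∈ I (j, c) → ∀ i, (j, i) ∈ L := by
    intro e
    obtain ⟨hw1, hw2⟩ := hw e
    have hcard : w e / 2 ≤ (univ : Finset (Fin m × Fin s)).card := by
      rw [Finset.card_univ, Fintype.card_prod, Fintype.card_fin, Fintype.card_fin]
      have : 2 * m * s = 2 * (m * s) := by ring
      omega
    by_cases h : ∃ j c, e ∈ I (j, c)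
    · obtain ⟨j, c, hjc⟩ := h
      have h1 : (univ.image (fun i : Fin s => (j, i))).card ≤ w e / 2 := by
        refine le_trans Finset.card_image_le ?_
        rw [Finset.card_univ, Fintype.card_fin]
        omega
      obtain ⟨L, hL1, _, hL3⟩ := Finset.exists_subsuperset_card_eq
        (Finset.subset_univ (univ.image (fun i : Fin s => (j, i)))) h1 hcard
      refine ⟨L, hL3, ?_⟩
      intro j' c' h' i
      have h2 : ((j', c') : Fin m × Bool) = (j, c) := by
        by_contra hne
        exact Finset.disjoint_left.1 (hd _ _ hne) h' hjc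
      have h3 : j' = j := congrArg Prod.fst h2
      subst h3
      exact hL1 (Finset.mem_image_of_mem _ (Finset.mem_univ i))
    · obtain ⟨L, _, hL2⟩ := Finset.exists_subset_card_eq hcard
      exact ⟨L, hL2, fun j c h' => absurd ⟨j, c, h'⟩ h⟩
  choose L hL1 hL2 using hL
  obtain ⟨F, hF1, hF2⟩ := Pool.Agent.TH300.FC.sum_layers G L (by
    rintro ⟨j, i⟩ e he
    -- a spanning set of the layer that avoids `e`
    have hc : ∃ c, e ∉ I (j, c) := by
      by_cases h : e ∈ I (j, false)
      · refine ⟨true, fun h' => ?_⟩
        exact Finset.disjoint_left.1 (hd (j, false) (j, true) (by simp)) h h'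
      · exact ⟨false, h⟩
    obtain ⟨c, hc⟩ := hc
    obtain ⟨ψ, h1, h2, h3⟩ := Pool.Agent.TH300.FC.flow_of_span _ _ _ (hI (j, c)) e hc
    have hev : G.IsEven (univ.filter (fun f => ψ f = 1)) := by
      rw [G.isEven_iff v hv, isFl_iff]
      have h4 : (fun f => if f ∈ univ.filter (fun f => ψ f = 1) then (1 : F2) else 0) = ψ := by
        ext f
        rcases f2_cases (ψ f) with h5 | h5 <;> simp [h5]
      rw [h4]
      exact h3
    obtain ⟨C, hC1, hC2, hC3⟩ := Pool.Agent.TH300.FC.circ_of_even G _ hev e (by simp [h1])
    refine ⟨C, hC1, hC2, fun f hf => ?_⟩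
    have h5 := (Finset.mem_filter.1 (hC3 hf)).2
    by_cases hfe : f = e
    · rw [hfe]; exact he
    · by_cases hfI : f ∈ I (j, c)
      · exact hL2 f j c hfI i
      · rw [h2 f hfe hfI] at h5
        exact absurd h5 (by decide))
  refine ⟨F, hF1, fun e => ?_⟩
  rw [hF2 e, hL1 e]

end Pool.Agent.Results.MP_2c3f2e_co.HighlyConnected
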